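import Pool.Agent.K1H79.Q3.StmB

/-! # Quartic fields which contain `√-3` (piece `S_DAT`) -/

set_option autoImplicit false

namespace Pool.Agent.K1H1.Q3

open NumberField Pool.Agent.K1H79.Q3
open scoped QuadraticAlgebra

/-- every nonzero element is a square times a squarefree element -/
theorem exists_sqf (γ : E) (h : γ ≠ 0) : ∃ c α : E, c ≠ 0 ∧ Squarefree α ∧ γ = c ^ 2 * α := by
  induction hn : nm γ using Nat.strong_induction_on generalizing γ with
  | _ n ih =>
    by_cases hs : Squarefree γ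
    · exact ⟨1, γ, one_ne_zero, hs, by ring⟩
    · rw [Squarefree] at hs
      push Not at hs
      obtain ⟨d, ⟨e, he⟩, hd⟩ := hs
      have he0 : e ≠ 0 := by rintro rfl; exact h (by rw [he, mul_zero])
      have hd0 : d ≠ 0 := by rintro rfl; exact h (by rw [he]; ring)
      have h1 : nm γ = nm d * nm d * nm e := by rw [he, nm_mul, nm_mul]
      have h2 : nm d ≠ 1 := fun h2 => hd (isUnit_iff'.2 h2)
      have h3 := nm_pos hd0
      have h4 := nm_pos he0
      have h5 : 2 ≤ nm d := by omega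
      have h6 : nm e < n := by
        rw [← hn, h1]
        have : 2 * 2 ≤ nm d * nm d := Nat.mul_le_mul h5 h5
        nlinarith
      obtain ⟨c, α, hc, hα, hce⟩ := ih (nm e) h6 e he0 rfl
      exact ⟨d * c, α, mul_ne_zero hd0 hc, hα, by rw [he, hce]; ring⟩

section Quad

/-- elements of a quadratic extension -/
theorem quad_repr {k L : Type} [Field k] [Field L] [Algebra k L] (h2 : Module.finrank k L = 2)
    (s : L) (hs : s ∉ (algebraMap k L).range) (y : L) :
    ∃ a b : k, y = algebraMap k L a + algebraMap k L b * s := by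
  have hli : LinearIndependent k ![(1 : L), s] := by
    rw [LinearIndependent.pair_iff]
    intro a b hab
    by_cases hb : b = 0
    · subst hb
      rw [zero_smul, add_zero, Algebra.smul_def, mul_one, map_eq_zero] at hab
      exact ⟨hab, rfl⟩
    · exfalso
      apply hs
      refine ⟨-(a / b), ?_⟩
      rw [Algebra.smul_def, Algebra.smul_def, mul_one] at hab
      have hb' : algebraMap k L b ≠ 0 := by rwa [ne_eq, map_eq_zero]
      rw [map_neg, map_div₀]
      field_simp
      linear_combination -hab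
  have hspan := hli.span_eq_top_of_card_eq_finrank (by rw [h2]; rfl)
  have hy : y ∈ Submodule.span k (Set.range ![(1 : L), s]) := by rw [hspan]; trivial
  rw [Matrix.range_cons, Matrix.range_cons, Matrix.range_empty, Set.union_empty,
    Set.singleton_union, Submodule.mem_span_pair] at hy
  obtain ⟨a, b, hab⟩ := hy
  refine ⟨a, b, ?_⟩
  rw [← hab, Algebra.smul_def, Algebra.smul_def, mul_one]

end Quad

section Om

variable {L : Type} [Field L] [NumberField L]

/-- the embedding of `ℤ[ω]` -/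
theorem exists_om (z : L) (hz : z ^ 2 + z + 1 = 0) : ∃ om : E →+* 𝓞 L, Function.Injective om ∧
    ∀ e : E, ((om e : 𝓞 L) : L) = (e.re : L) + (e.im : L) * z := by
  have hint : IsIntegral ℤ z := by
    refine ⟨Polynomial.X ^ 2 + Polynomial.X + 1, ?_, ?_⟩
    · monicity!
    · simp [hz]
  obtain ⟨Z, hZz⟩ : ∃ Z : 𝓞 L, (Z : L) = z := ⟨⟨z, hint⟩, rfl⟩
  have hZ : Z * Z = (-1 : ℤ) • (1 : 𝓞 L) + (-1 : ℤ) • Z := by
    apply RingOfIntegers.ext
    have : z * z = -1 - z := by linear_combination hz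
    have e1 : algebraMap (𝓞 L) L Z = z := hZz
    change algebraMap (𝓞 L) L (Z * Z) = algebraMap (𝓞 L) L _
    rw [neg_one_smul, neg_one_smul, map_mul, map_add, map_neg, map_neg, map_one, e1, this]
    ring
  let om : E →ₐ[ℤ] 𝓞 L := QuadraticAlgebra.lift ⟨Z, hZ⟩
  have hom : ∀ e : E, ((om e : 𝓞 L) : L) = (e.re : L) + (e.im : L) * z := by
    intro e
    simp [om, QuadraticAlgebra.lift, hZz]
  refine ⟨om, ?_, hom⟩
  rw [injective_iff_map_eq_zero]
  intro e he
  have h1 : ((om e * om (star e) : 𝓞 L) : L) = ((nm e : ℕ) : L) := by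
    rw [← map_mul, ← QuadraticAlgebra.algebraMap_norm_eq_mul_star]
    have h2 : QuadraticAlgebra.norm e = (nm e : ℤ) := by
      rw [nm, Int.natAbs_of_nonneg (norm_nonneg' e)]
    rw [h2]
    simp
  have he' : om e = 0 := he
  rw [he', zero_mul] at h1
  have h3 : ((nm e : ℕ) : L) = 0 := by rw [← h1]; simp
  exact nm_eq_zero.1 (by exact_mod_cast h3)

end Om

theorem t_DAT : S_DAT := by
  intro L _ _ hdeg ⟨z, hz⟩
  classical
  obtain ⟨om, hinj, hom'⟩ := exists_om z hz
  obtain ⟨φ, hφ⟩ : ∃ φ : E →+* L, ∀ e, φ e = ((om e : 𝓞 L) : L) :=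
    ⟨(algebraMap (𝓞 L) L).comp om, fun _ => rfl⟩
  have hom : ∀ e : E, φ e = (e.re : L) + (e.im : L) * z := fun e => (hφ e).trans (hom' e)
  have hom0 : ∀ e : E, φ e = 0 → e = 0 := by
    intro e he
    apply hinj
    rw [map_zero]
    rw [hφ] at he
    exact RingOfIntegers.coe_eq_zero_iff.1 he
  -- the field `k`
  let k : IntermediateField ℚ L := IntermediateField.adjoin ℚ {z}
  have hzk : z ∈ k := IntermediateField.mem_adjoin_simple_self ℚ z
  have hz1 : z ≠ 1 := by
    rintro rfl
    norm_num at hz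
  have hz3 : z ^ 3 = 1 := by linear_combination (z - 1) * hz
  have hprim : IsPrimitiveRoot z 3 := by
    have := IsPrimitiveRoot.orderOf z
    rwa [orderOf_eq_prime hz3 hz1] at this
  have hzint : IsIntegral ℚ z := Algebra.IsIntegral.isIntegral z
  have hk2 : Module.finrank ℚ k = 2 := by
    rw [IntermediateField.adjoin.finrank hzint, ← Polynomial.cyclotomic_eq_minpoly_rat hprim (by norm_num),
      Polynomial.natDegree_cyclotomic]
    decide
  have hL2 : Module.finrank k L = 2 := by
    have := Module.finrank_mul_finrank ℚ k L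
    rw [hk2, hdeg] at this
    omega
  have hkmem : ∀ u : E, φ u ∈ k := by
    intro u
    rw [hom u]
    exact add_mem (intCast_mem k _) (mul_mem (intCast_mem k _) hzk)
  have hkfrac : ∀ a ∈ k, ∃ u w : E, w ≠ 0 ∧ φ w * a = φ u := by
    intro a ha
    induction ha using IntermediateField.adjoin_induction with
    | mem x hx =>
      rw [Set.mem_singleton_iff] at hx
      subst hx
      exact ⟨⟨0, 1⟩, 1, one_ne_zero, by rw [map_one, hom]; simp⟩
    | algebraMap q =>
      refine ⟨(q.num : E), ((q.den : ℤ) : E), ?_, ?_⟩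
      · have := q.den_nz
        exact_mod_cast this
      · rw [map_intCast, map_intCast]
        have h1 : (q.den : L) * (q : L) = (q.num : L) := by
          exact_mod_cast Rat.den_mul_eq_num q
        simpa using h1
    | add x y hx hy h1 h2 =>
      obtain ⟨u, w, hw, e⟩ := h1
      obtain ⟨u', w', hw', e'⟩ := h2
      refine ⟨u * w' + u' * w, w * w', mul_ne_zero hw hw', ?_⟩
      simp only [map_mul, map_add]
      linear_combination φ w' * e + φ w * e'
    | inv x hx h1 =>
      obtain ⟨u, w, hw, e⟩ := h1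
      by_cases hx0 : x = 0
      · exact ⟨0, 1, one_ne_zero, by simp [hx0]⟩
      · have hw1 : φ w ≠ 0 := fun h => hw (hom0 w h)
        have hu : u ≠ 0 := by
          rintro rfl
          rw [map_zero] at e
          exact mul_ne_zero hw1 hx0 e
        refine ⟨w, u, hu, ?_⟩
        rw [← e, mul_assoc, mul_inv_cancel₀ hx0, mul_one]
    | mul x y hx hy h1 h2 =>
      obtain ⟨u, w, hw, e⟩ := h1
      obtain ⟨u', w', hw', e'⟩ := h2
      refine ⟨u * u', w * w', mul_ne_zero hw hw', ?_⟩
      simp only [map_mul]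
      rw [← e, ← e']
      ring
  -- an element outside `k`
  have hne : ∃ x : L, x ∉ k := by
    by_contra hcon
    push Not at hcon
    have htop : k = ⊤ := by
      rw [eq_top_iff]
      intro x _
      exact hcon x
    rw [htop, IntermediateField.finrank_top', hdeg] at hk2
    omega
  obtain ⟨x, hx⟩ := hne
  have hran : ∀ y : L, y ∈ (algebraMap k L).range ↔ y ∈ k := by
    intro y
    constructor
    · rintro ⟨a, rfl⟩
      exact a.2
    · intro h
      exact ⟨⟨y, h⟩, rfl⟩
  obtain ⟨b, a, hab⟩ := quad_repr hL2 x (by rwa [hran]) (x ^ 2)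
  -- complete the square
  obtain ⟨s0, hs0⟩ : ∃ s0 : L, s0 = x - (a : L) / 2 := ⟨_, rfl⟩
  have hab' : x ^ 2 = (b : L) + (a : L) * x := hab
  have hs0k : s0 ∉ k := by
    intro h
    apply hx
    have : x = s0 + (a : L) / 2 := by rw [hs0]; ring
    rw [this]
    exact add_mem h (div_mem a.2 (by exact_mod_cast intCast_mem k 2))
  have hs0sq : s0 ^ 2 ∈ k := by
    have : s0 ^ 2 = (b : L) + (a : L) ^ 2 / 4 := by
      rw [hs0]
      linear_combination hab'
    rw [this]
    exact add_mem b.2 (div_mem (pow_mem a.2 2) (by exact_mod_cast intCast_mem k 4))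
  obtain ⟨u, w, hw, huw⟩ := hkfrac _ hs0sq
  have hw1 : φ w ≠ 0 := fun h => hw (hom0 w h)
  have hs00 : s0 ≠ 0 := fun h => hs0k (h ▸ zero_mem k)
  have hγ0 : u * w ≠ 0 := by
    refine mul_ne_zero ?_ hw
    rintro rfl
    rw [map_zero] at huw
    exact mul_ne_zero hw1 (pow_ne_zero 2 hs00) huw
  obtain ⟨c, α, hc, hα, hcα⟩ := exists_sqf _ hγ0
  have hc1 : φ c ≠ 0 := fun h => hc (hom0 c h)
  obtain ⟨s1, hs1⟩ : ∃ s1 : L, s1 = φ w * s0 / φ c := ⟨_, rfl⟩
  have hs1sq : s1 ^ 2 = φ α := by
    rw [hs1, div_pow, div_eq_iff (pow_ne_zero 2 hc1)]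
    have h1 : φ (u * w) = φ (c ^ 2 * α) := by rw [hcα]
    simp only [map_mul, map_pow] at h1
    linear_combination φ w * huw + h1
  have hs1int : IsIntegral ℤ s1 := by
    have h1 : IsIntegral ℤ (s1 ^ 2) := by
      rw [hs1sq, hφ]
      exact (om α).2
    exact IsIntegral.of_pow (by norm_num) h1
  obtain ⟨s, hss⟩ : ∃ s : 𝓞 L, (s : L) = s1 := ⟨⟨s1, hs1int⟩, rfl⟩
  have hsk : (s : L) ∉ k := by
    rw [hss]
    intro h
    apply hs0k
    have : s0 = s1 * φ c / φ w := by
      rw [hs1]
      field_simp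
    rw [this]
    exact div_mem (mul_mem h (hkmem c)) (hkmem w)
  have hsq : s ^ 2 = om α := by
    apply RingOfIntegers.ext
    rw [← hφ, ← hs1sq, ← hss]
    rfl
  have hrepr : ∀ y : L, ∃ a b : k, y = (a : L) + (b : L) * (s : L) := fun y =>
    quad_repr hL2 (s : L) (by rwa [hran]) y
  -- the automorphism
  have : Algebra.IsQuadraticExtension k L := ⟨hL2⟩
  have : IsGalois k L := inferInstance
  have hcard : Nat.card (L ≃ₐ[k] L) = 2 := by rw [IsGalois.card_aut_eq_finrank, hL2]
  obtain ⟨σ, hσ⟩ : ∃ σ : L ≃ₐ[k] L, σ ≠ 1 := by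
    by_contra hcon
    push Not at hcon
    have : Nat.card (L ≃ₐ[k] L) ≤ 1 := by
      have : Subsingleton (L ≃ₐ[k] L) := ⟨fun a b => by rw [hcon a, hcon b]⟩
      exact Finite.card_le_one_iff_subsingleton.2 this
    omega
  have hσk : ∀ a : k, σ (a : L) = (a : L) := fun a => σ.commutes a
  have hσs : σ (s : L) = -(s : L) := by
    have h1 : (σ (s : L)) ^ 2 = (s : L) ^ 2 := by
      have h2 : (s : L) ^ 2 ∈ k := by
        have h3 : (s : L) ^ 2 = φ α := by rw [hss, hs1sq]
        rw [h3]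
        exact hkmem α
      rw [← map_pow]
      exact hσk ⟨_, h2⟩
    rcases sq_eq_sq_iff_eq_or_eq_neg.1 h1 with h | h
    · exfalso
      apply hσ
      ext y
      obtain ⟨a, b, rfl⟩ := hrepr y
      rw [map_add, map_mul, hσk, hσk, h]
      rfl
    · exact h
  refine ⟨⟨om, s, α, hsq, hα, σ.toRingEquiv, hσs, fun e => by rw [← hφ]; exact hσk ⟨_, hkmem e⟩, ?_, ?_, hdeg⟩⟩
  · intro y
    obtain ⟨a, b, rfl⟩ := hrepr y
    change σ (σ _) = _
    simp only [map_add, map_mul, hσk, hσs, map_neg, neg_neg]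
  · intro y
    obtain ⟨a, b, rfl⟩ := hrepr y
    obtain ⟨u1, w1, hw1, e1⟩ := hkfrac _ a.2
    obtain ⟨u2, w2, hw2, e2⟩ := hkfrac _ b.2
    refine ⟨u1 * w2, u2 * w1, w1 * w2, mul_ne_zero hw1 hw2, ?_⟩
    have e3 : ((om (u1 * w2) + om (u2 * w1) * s : 𝓞 L) : L) =
        φ (u1 * w2) + φ (u2 * w1) * (s : L) := by
      rw [hφ, hφ]
      change algebraMap (𝓞 L) L _ = _
      rw [map_add, map_mul]
      rfl
    rw [e3, ← hφ]
    simp only [map_mul]
    linear_combination φ w2 * e1 + φ w1 * (s : L) * e2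

end Pool.Agent.K1H1.Q3
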